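import Pool.Agent.H90.SBO.Sum

/-!
Frank's conjecture for the sum of the independent set polytopes of two strongly base orderable
matroids.
-/

set_option autoImplicit false

namespace Pool.Agent.Results.MP_8bd56d_co.FrankSBO

open Set

/-- A matroid is strongly base orderable if for any two bases `B₁`, `B₂` there is a bijection
`φ : B₁ → B₂` such that `(B₁ \ X) ∪ φ(X)` is a base for every `X ⊆ B₁`. -/
def IsSBO {α : Type*} (M : Matroid α) : Prop :=
  ∀ B₁ B₂, M.IsBase B₁ → M.IsBase B₂ → ∃ φ : α → α, BijOn φ B₁ B₂ ∧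
    ∀ X ⊆ B₁, M.IsBase ((B₁ \ X) ∪ φ '' X)

/-- The integer 2-polymatroid `P` of `M` and `N` (rank function `r_M + r_N`): the convex hull of the
vectors `1_I + 1_J`, where `I` is independent in `M` and `J` is independent in `N`. -/
noncomputable def sumPolytope {σ : Type*} (M N : Matroid σ) : Set (σ → ℝ) :=
  convexHull ℝ {x | ∃ I J, M.Indep I ∧ N.Indep J ∧
    ∀ s, x s = I.indicator 1 s + J.indicator 1 s}

theorem result {σ : Type*} [Finite σ] (M N : Matroid σ) (hM : IsSBO M) (hN : IsSBO N)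
    (h1 : 1 ∈ sumPolytope M N) :
    ∃ v : σ → ℝ, (∀ s, v s = 0 ∨ v s = 1 ∨ v s = 2) ∧
      v ∈ (sumPolytope M N).extremePoints ℝ ∧ 2 - v ∈ (sumPolytope M N).extremePoints ℝ := by
  classical
  have _ := Fintype.ofFinite σ
  have hA := H90.SBO.sbo_indep_SE M hM
  have hB := H90.SBO.sbo_indep_SE N hN
  have hQ : sumPolytope M N = convexHull ℝ (H90.SBO.PtsS
      {F : Set σ | M.Indep F} {F : Set σ | N.Indep F}) := by
    unfold sumPolytope H90.SBO.PtsS
    congr 1
    ext x
    constructor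
    · rintro ⟨A, B, hA', hB', hx⟩
      refine ⟨A, hA', B, hB', fun e => ?_⟩
      rw [hx]
      simp [H90.SBO.ind, Set.indicator_apply]
    · rintro ⟨A, hA', B, hB', hx⟩
      refine ⟨A, B, hA', hB', fun e => ?_⟩
      rw [hx]
      simp [H90.SBO.ind, Set.indicator_apply]
  rw [hQ] at h1 ⊢
  exact H90.SBO.main_sum hA hB h1

end Pool.Agent.Results.MP_8bd56d_co.FrankSBO
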