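import Pool.Agent.H90.SBO.Sum

/-!
Opposite vertices of the g-polymatroid `conv {1_(A ∩ σ) - 1_(B ∩ σ)}`, `A`, `B` bases of two strongly
base orderable matroids on `σ ⊕ τ`.
-/

set_option autoImplicit false

namespace Pool.Agent.Results.MP_8bd56d_co.StronglyBaseOrderable

open Set

/-- A matroid is strongly base orderable if for any two bases `B₁`, `B₂` there is a bijection
`φ : B₁ → B₂` such that `(B₁ \ X) ∪ φ(X)` is a base for every `X ⊆ B₁`. -/
def IsSBO {α : Type*} (M : Matroid α) : Prop :=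
  ∀ B₁ B₂, M.IsBase B₁ → M.IsBase B₂ → ∃ φ : α → α, BijOn φ B₁ B₂ ∧
    ∀ X ⊆ B₁, M.IsBase ((B₁ \ X) ∪ φ '' X)

/-- The convex hull `Q` of the vectors `(1_A(s) - 1_B(s))_(s ∈ σ)`, where `A` is a base of `M` and
`B` is a base of `N` (the matroids are on `σ ⊕ τ`, the coordinates in `τ` are forgotten). -/
noncomputable def diffPolytope {σ τ : Type*} (M N : Matroid (σ ⊕ τ)) : Set (σ → ℝ) :=
  convexHull ℝ {x | ∃ A B, M.IsBase A ∧ N.IsBase B ∧
    ∀ s, x s = A.indicator 1 (Sum.inl s) - B.indicator 1 (Sum.inl s)}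

theorem result {σ τ : Type*} [Finite σ] [Finite τ] (M N : Matroid (σ ⊕ τ)) (hM : IsSBO M)
    (hN : IsSBO N) (h0 : 0 ∈ diffPolytope M N) :
    -- there is a vertex `v` such that `-v` is a vertex
    (∃ v : σ → ℝ, (∀ s, v s = -1 ∨ v s = 0 ∨ v s = 1) ∧
      v ∈ (diffPolytope M N).extremePoints ℝ ∧ -v ∈ (diffPolytope M N).extremePoints ℝ) ∧
    -- all the integer points of `Q ∩ -Q` with the maximum number of nonzero coordinates are such
    (∀ v : σ → ℝ, (∀ s, v s = -1 ∨ v s = 0 ∨ v s = 1) →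
      v ∈ diffPolytope M N → -v ∈ diffPolytope M N →
      (∀ w : σ → ℝ, (∀ s, w s = -1 ∨ w s = 0 ∨ w s = 1) →
        w ∈ diffPolytope M N → -w ∈ diffPolytope M N → {s | w s ≠ 0}.ncard ≤ {s | v s ≠ 0}.ncard) →
      v ∈ (diffPolytope M N).extremePoints ℝ ∧ -v ∈ (diffPolytope M N).extremePoints ℝ) := by
  classical
  have _ := Fintype.ofFinite σ
  have hA := H90.SBO.sbo_SE M hM
  have hB := H90.SBO.sbo_SE N hN
  have hQ : diffPolytope M N = convexHull ℝ (H90.SBO.Pts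
      {F : Set σ | ∃ A, M.IsBase A ∧ F = Sum.inl ⁻¹' A}
      {F : Set σ | ∃ A, N.IsBase A ∧ F = Sum.inl ⁻¹' A}) := by
    unfold diffPolytope H90.SBO.Pts
    congr 1
    ext x
    constructor
    · rintro ⟨A, B, hA', hB', hx⟩
      refine ⟨_, ⟨A, hA', rfl⟩, _, ⟨B, hB', rfl⟩, fun e => ?_⟩
      rw [hx]
      simp [H90.SBO.ind, Set.indicator_apply]
    · rintro ⟨_, ⟨A, hA', rfl⟩, _, ⟨B, hB', rfl⟩, hx⟩
      refine ⟨A, B, hA', hB', fun e => ?_⟩
      rw [hx]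
      simp [H90.SBO.ind, Set.indicator_apply]
  rw [hQ] at h0 ⊢
  obtain ⟨h1, h2⟩ := H90.SBO.main_families hA hB h0
  exact ⟨h2, h1⟩

end Pool.Agent.Results.MP_8bd56d_co.StronglyBaseOrderable
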