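import Mathlib

/-!
# Opposite vertices of monotone g-polymatroids

Let `(p, b)` be a paired pair of integer set functions with `b` nondecreasing and `p`
nonincreasing, such that every vertex of the g-polymatroid `Q(p, b)` lies in `{0, 1, -1}^n`.
Then `Q(p, b)` has a vertex `v` such that every vector obtained from `v` by changing the signs
of some coordinates lies in `Q(p, b)`; in particular `-v ∈ Q(p, b)`.
-/

set_option autoImplicit false

open Finset

namespace Pool.Agent.Results.MP_8bd56d_co.TwoMatroids

/-- a set function with the three axioms of a matroid rank function -/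
structure Rk {α : Type} [DecidableEq α] (r : Finset α → ℤ) : Prop where
  emp : r ∅ = 0
  mono : ∀ X Y, X ⊆ Y → r X ≤ r Y
  unit : ∀ e X, r (insert e X) ≤ r X + 1
  sub : ∀ X Y, r (X ∩ Y) + r (X ∪ Y) ≤ r X + r Y

section inter

variable {α : Type} [DecidableEq α]

lemma Rk.con {r : Finset α → ℤ} (h : Rk r) {e : α} (he : r {e} = 1) :
    Rk fun Y => r (insert e Y) - 1 where
  emp := by simp [he]
  mono X Y hXY := by have := h.mono _ _ (insert_subset_insert e hXY); omega
  unit a X := by have := h.unit a (insert e X); rw [insert_comm] at this; omega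
  sub X Y := by
    have := h.sub (insert e X) (insert e Y)
    rw [← insert_inter_distrib, ← insert_union_distrib] at this
    omega

lemma Rk.one {r : Finset α → ℤ} (h : Rk r) {e : α} {X : Finset α} (hx : r X < r (insert e X)) :
    r {e} = 1 := by
  have h1 := h.sub {e} X
  have h2 := h.mono ∅ ({e} ∩ X) (empty_subset _)
  have h3 := h.unit e ∅
  rw [← insert_eq] at h1
  rw [h.emp] at h2 h3
  have : (insert e ∅ : Finset α) = {e} := rfl
  rw [this] at h3
  omega

/-- Edmonds' matroid intersection theorem for rank functions (the short inductive proof of the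
library module `Pool.Graph.R_pool_sql_team_39128cda.Lib.helper7_.MatInter`). -/
theorem inter (S : Finset α) : ∀ (r1 r2 : Finset α → ℤ), Rk r1 → Rk r2 → ∀ k : ℕ,
    (∀ X ⊆ S, (k : ℤ) ≤ r1 X + r2 (S \ X)) → ∃ I ⊆ S, I.card = k ∧ r1 I = k ∧ r2 I = k := by
  induction S using Finset.induction_on with
  | empty =>
    intro r1 r2 h1 h2 k h
    have := h ∅ (Subset.refl _)
    simp only [sdiff_self, bot_eq_empty, h1.emp, h2.emp] at this
    have : k = 0 := by omega
    subst this
    exact ⟨∅, Subset.refl _, rfl, h1.emp, h2.emp⟩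
  | insert e S he ih =>
    intro r1 r2 h1 h2 k h
    by_cases hA : ∀ X ⊆ S, (k : ℤ) ≤ r1 X + r2 (S \ X)
    · obtain ⟨I, a, b⟩ := ih r1 r2 h1 h2 k hA
      exact ⟨I, a.trans (subset_insert _ _), b⟩
    push Not at hA
    obtain ⟨X, hX, hlt⟩ := hA
    have eX : e ∉ X := fun h => he (hX h)
    have a1 := h (insert e X) (insert_subset_insert e hX)
    have a2 := h X (hX.trans (subset_insert _ _))
    have s1 : insert e S \ insert e X = S \ X := by
      ext x; simp only [mem_sdiff, mem_insert]; grind
    rw [s1] at a1
    rw [insert_sdiff_of_notMem _ eX] at a2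
    have e1 : r1 {e} = 1 := h1.one (X := X) (by omega)
    have e2 : r2 {e} = 1 := h2.one (X := S \ X) (by omega)
    have p1 := h1.mono ∅ X (empty_subset _)
    have p2 := h2.mono ∅ (S \ X) (empty_subset _)
    rw [h1.emp] at p1
    rw [h2.emp] at p2
    obtain ⟨k, rfl⟩ : ∃ j, k = j + 1 := ⟨k - 1, by omega⟩
    obtain ⟨I, a, b, c, d⟩ := ih _ _ (h1.con e1) (h2.con e2) k (by
      intro Y hY
      have b1 := h1.sub X (insert e Y)
      have b2 := h2.sub (S \ X) (insert e (S \ Y))
      have b3 := h (X ∩ insert e Y) (inter_subset_left.trans (hX.trans (subset_insert _ _)))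
      have b4 := h (X ∪ insert e Y) (union_subset (hX.trans (subset_insert _ _))
        (insert_subset_insert e hY))
      have s2 : insert e S \ (X ∩ insert e Y) = S \ X ∪ insert e (S \ Y) := by
        ext x; simp only [mem_sdiff, mem_insert, mem_inter, mem_union]; grind
      have s3 : insert e S \ (X ∪ insert e Y) = S \ X ∩ insert e (S \ Y) := by
        ext x; simp only [mem_sdiff, mem_insert, mem_inter, mem_union]; grind
      rw [s2] at b3
      rw [s3] at b4
      push_cast at *
      omega)
    refine ⟨insert e I, insert_subset_insert e a, ?_, ?_, ?_⟩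
    · rw [card_insert_of_notMem fun h => he (a h), b]
    · push_cast; omega
    · push_cast; omega

lemma Rk.card_le {r : Finset α → ℤ} (h : Rk r) (X Y : Finset α) (hXY : X ⊆ Y) :
    r Y ≤ r X + (Y \ X).card := by
  induction Y using Finset.induction_on with
  | empty =>
    have : X = ∅ := subset_empty.mp hXY
    subst this; simp
  | insert e Y he ih =>
    by_cases hX : X ⊆ Y
    · have h1 := h.unit e Y
      have h2 := ih hX
      have h3 : e ∉ X := fun h => he (hX h)
      rw [insert_sdiff_of_notMem _ h3, card_insert_of_notMem (by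
        intro h'; exact he (mem_sdiff.mp h').1)]
      push_cast
      omega
    · have heX : e ∈ X := by
        by_contra h'
        apply hX
        intro x hx
        rcases mem_insert.mp (hXY hx) with rfl | h2
        · exact absurd hx h'
        · exact h2
      have h1 : X.erase e ⊆ Y := by
        intro x hx
        rcases mem_insert.mp (hXY (mem_of_mem_erase hx)) with rfl | h2
        · exact absurd rfl (ne_of_mem_erase hx)
        · exact h2
      -- compare through `insert`
      have key : ∀ Z : Finset α, ∀ W : Finset α, r (W ∪ Z) ≤ r W + Z.card := by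
        intro Z W
        induction Z using Finset.induction_on with
        | empty => simp
        | insert a Z ha ihZ =>
          rw [union_insert, card_insert_of_notMem ha]
          have := h.unit a (W ∪ Z)
          push_cast
          omega
      have h2 := key (insert e Y \ X) X
      rw [union_sdiff_of_subset hXY] at h2
      exact h2

lemma Rk.le_card {r : Finset α → ℤ} (h : Rk r) (X : Finset α) : r X ≤ X.card := by
  have := h.card_le ∅ X (empty_subset _)
  rw [h.emp, sdiff_empty] at this
  omega

lemma Rk.indep {r : Finset α → ℤ} (h : Rk r) {I T : Finset α} (hI : r I = I.card)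
    (hT : T ⊆ I) : r T = T.card := by
  have h1 := h.card_le T I hT
  have h2 := h.le_card T
  have h3 : (I \ T).card + T.card = I.card := card_sdiff_add_card_eq_card hT
  omega

end inter

variable {n : ℕ}

/-- `x(A) = ∑_{i ∈ A} x_i` -/
def val (x : Fin n → ℝ) (A : Finset (Fin n)) : ℝ := ∑ i ∈ A, x i

/-- `(p, b)` is a paired pair of integer set functions: `p` is supermodular, `b` is submodular,
both vanish at `∅`, and `b(X) - p(Y) ≥ b(X \ Y) - p(Y \ X)`. -/
structure Paired (p b : Finset (Fin n) → ℤ) : Prop where
  p0 : p ∅ = 0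
  b0 : b ∅ = 0
  sup : ∀ X Y, p X + p Y ≤ p (X ∩ Y) + p (X ∪ Y)
  sub : ∀ X Y, b (X ∩ Y) + b (X ∪ Y) ≤ b X + b Y
  pair : ∀ X Y, b (X \ Y) - p (Y \ X) ≤ b X - p Y

/-- the g-polymatroid of the pair `(p, b)` -/
def Q (p b : Finset (Fin n) → ℤ) : Set (Fin n → ℝ) :=
  {x | ∀ A : Finset (Fin n), (p A : ℝ) ≤ val x A ∧ val x A ≤ (b A : ℝ)}

lemma val_add (x y : Fin n → ℝ) (A : Finset (Fin n)) : val (x + y) A = val x A + val y A := by
  simp [val, sum_add_distrib]

lemma val_smul (c : ℝ) (x : Fin n → ℝ) (A : Finset (Fin n)) : val (c • x) A = c * val x A := by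
  simp [val, mul_sum]

lemma val_sing (x : Fin n → ℝ) (i : Fin n) : val x {i} = x i := by simp [val]

lemma val_insert (x : Fin n → ℝ) {A : Finset (Fin n)} {i : Fin n} (h : i ∉ A) :
    val x (insert i A) = x i + val x A := by
  simp [val, sum_insert h]

lemma val_cont (A : Finset (Fin n)) : Continuous fun x : Fin n → ℝ => val x A := by
  unfold val; fun_prop

lemma Q_compact (p b : Finset (Fin n) → ℤ) : IsCompact (Q p b) := by
  have hcl : IsClosed (Q p b) := by
    have : Q p b = ⋂ A : Finset (Fin n), {x | (p A : ℝ) ≤ val x A ∧ val x A ≤ (b A : ℝ)} := by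
      ext x; simp [Q]
    rw [this]
    refine isClosed_iInter fun A => ?_
    exact (isClosed_le continuous_const (val_cont A)).inter
      (isClosed_le (val_cont A) continuous_const)
  have hsub : Q p b ⊆ Set.Icc (fun i => (p {i} : ℝ)) (fun i => (b {i} : ℝ)) := by
    intro x hx
    constructor
    · intro i; have := (hx {i}).1; rwa [val_sing] at this
    · intro i; have := (hx {i}).2; rwa [val_sing] at this
  exact isCompact_Icc.of_isClosed_subset hcl hsub

/-- a coordinate attains its maximum over `Q` at a vertex -/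
lemma exists_vertex_max (p b : Finset (Fin n) → ℤ) (s : ℝ) (i : Fin n) {y : Fin n → ℝ}
    (hy : y ∈ Q p b) : ∃ v ∈ (Q p b).extremePoints ℝ, s * y i ≤ s * v i := by
  set l : (Fin n → ℝ) →L[ℝ] ℝ := s • ContinuousLinearMap.proj i with hl
  have hexp : IsExposed ℝ (Q p b) (l.toExposed (Q p b)) :=
    ContinuousLinearMap.toExposed.isExposed
  have hne : (l.toExposed (Q p b)).Nonempty := by
    obtain ⟨z, hz, hmax⟩ := (Q_compact p b).exists_isMaxOn ⟨y, hy⟩ l.continuous.continuousOn
    exact ⟨z, hz, fun w hw => hmax hw⟩
  have hcomp : IsCompact (l.toExposed (Q p b)) := hexp.isCompact (Q_compact p b)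
  obtain ⟨v, hv⟩ := hcomp.extremePoints_nonempty hne
  refine ⟨v, hexp.isExtreme.extremePoints_subset_extremePoints hv, ?_⟩
  have := (extremePoints_subset hv).2 y hy
  simpa [hl] using this

section main

variable {p b : Finset (Fin n) → ℤ}

lemma rk_b (h : Paired p b) (hb : Monotone b) (h1 : ∀ i, b {i} ≤ 1) : Rk b where
  emp := h.b0
  mono X Y hXY := hb hXY
  unit e X := by
    have a := h.sub {e} X
    have c := hb (empty_subset ({e} ∩ X))
    rw [h.b0] at c
    rw [← insert_eq] at a
    have := h1 e
    omega
  sub := h.sub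

lemma rk_p (h : Paired p b) (hp : Antitone p) (h1 : ∀ i, -1 ≤ p {i}) :
    Rk fun X => - p X where
  emp := by simp [h.p0]
  mono X Y hXY := by have := hp hXY; simpa using this
  unit e X := by
    have a := h.sup {e} X
    have c := hp (empty_subset ({e} ∩ X))
    rw [h.p0] at c
    rw [← insert_eq] at a
    have := h1 e
    omega
  sub X Y := by have := h.sup X Y; omega

end main

/-- The vector with entries `1` on `A`, `-1` on `B` and `0` elsewhere. -/
noncomputable def sgn (A B : Finset (Fin n)) : Fin n → ℝ :=
  fun i => if i ∈ A then 1 else if i ∈ B then -1 else 0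

lemma abs_sgn_le (A B : Finset (Fin n)) (i : Fin n) :
    |sgn A B i| ≤ if i ∈ A ∪ B then 1 else 0 := by
  unfold sgn
  by_cases hA : i ∈ A
  · simp [hA]
  · by_cases hB : i ∈ B
    · simp [hA, hB]
    · simp [hA, hB]

/-- The main combinatorial statement. -/
theorem core {p b : Finset (Fin n) → ℤ} (h : Paired p b) (hb : Monotone b) (hp : Antitone p)
    (h1 : ∀ i, b {i} ≤ 1) (h2 : ∀ i, -1 ≤ p {i}) :
    ∃ A B : Finset (Fin n), Disjoint A B ∧ sgn A B ∈ (Q p b).extremePoints ℝ ∧
      ∀ y : Fin n → ℝ, (∀ i, |y i| ≤ |sgn A B i|) → y ∈ Q p b := by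
  classical
  have r1 := rk_b h hb h1
  have r2 := rk_p h hp h2
  set q : Finset (Fin n) → ℤ := fun X => - p X with hq
  obtain ⟨X, -, hX⟩ := exists_min_image (univ : Finset (Finset (Fin n)))
    (fun X => b X + q (univ \ X)) ⟨∅, mem_univ _⟩
  have hb0 : ∀ Y, 0 ≤ b Y := fun Y => by have := r1.mono ∅ Y (empty_subset _); rwa [r1.emp] at this
  have hq0 : ∀ Y, 0 ≤ q Y := fun Y => by have := r2.mono ∅ Y (empty_subset _); rwa [r2.emp] at this
  obtain ⟨k, hk⟩ := Int.eq_ofNat_of_zero_le (add_nonneg (hb0 X) (hq0 (univ \ X)))
  obtain ⟨I, -, hIk, hI1, hI2⟩ := inter univ b q r1 r2 k (fun Y _ => by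
    have := hX Y (mem_univ _); omega)
  have hI1' : b I = I.card := by rw [hI1, hIk]
  have hI2' : q I = I.card := by rw [hI2, hIk]
  set A := I ∩ X with hA
  set B := I \ X with hB
  have hAI : A ⊆ I := inter_subset_left
  have hBI : B ⊆ I := sdiff_subset
  have hAB : A ∪ B = I := by
    ext x; simp only [hA, hB, mem_union, mem_inter, mem_sdiff]; tauto
  have hdis : Disjoint A B := by
    rw [disjoint_left]; intro x hx hx'
    exact (mem_sdiff.mp hx').2 (mem_inter.mp hx).2
  have hcard : A.card + B.card = I.card := by
    rw [← card_union_of_disjoint hdis, hAB]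
  have bA : b A = A.card := r1.indep hI1' hAI
  have qB : q B = B.card := r2.indep hI2' hBI
  have bAX : b A ≤ b X := hb (inter_subset_right)
  have qBX : q B ≤ q (univ \ X) := r2.mono _ _ (sdiff_subset_sdiff (subset_univ _) (Subset.refl _))
  have hkk : b X + q (univ \ X) = k := hk
  have bX : b X = A.card := by
    have : (I.card : ℤ) = k := by rw [hIk]
    omega
  have qX : q (univ \ X) = B.card := by
    have : (I.card : ℤ) = k := by rw [hIk]
    omega
  -- everything bounded by the indicator of `I` is in `Q`
  have hQ : ∀ y : Fin n → ℝ, (∀ i, |y i| ≤ |sgn A B i|) → y ∈ Q p b := by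
    intro y hy T
    have hle : |val y T| ≤ ((I ∩ T).card : ℝ) := by
      calc |val y T| ≤ ∑ i ∈ T, |y i| := abs_sum_le_sum_abs _ _
        _ ≤ ∑ i ∈ T, (if i ∈ I then (1 : ℝ) else 0) := by
          refine sum_le_sum fun i _ => (hy i).trans ?_
          have := abs_sgn_le A B i
          rwa [hAB] at this
        _ = ((I ∩ T).card : ℝ) := by
          rw [← sum_filter, sum_const, nsmul_eq_mul, mul_one]
          congr 2
          ext x; simp only [mem_filter, mem_inter]; tauto
    have c1 : ((I ∩ T).card : ℤ) ≤ b T := by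
      rw [← r1.indep hI1' (inter_subset_left : I ∩ T ⊆ I)]
      exact r1.mono _ _ inter_subset_right
    have c2 : ((I ∩ T).card : ℤ) ≤ q T := by
      rw [← r2.indep hI2' (inter_subset_left : I ∩ T ⊆ I)]
      exact r2.mono _ _ inter_subset_right
    have d1 : ((I ∩ T).card : ℝ) ≤ (b T : ℝ) := by exact_mod_cast c1
    have d2 : ((I ∩ T).card : ℝ) ≤ -(p T : ℝ) := by
      have : (((I ∩ T).card : ℤ) : ℝ) ≤ ((q T : ℤ) : ℝ) := by exact_mod_cast c2
      simpa [hq] using this
    constructor
    · have := (abs_le.mp hle).1; linarith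
    · exact (le_abs_self _).trans (hle.trans d1)
  have hxQ : sgn A B ∈ Q p b := hQ _ fun i => le_rfl
  -- tight sets
  have valA : ∀ T ⊆ A, val (sgn A B) T = T.card := by
    intro T hT
    unfold val sgn
    rw [sum_congr rfl (fun i hi => if_pos (hT hi))]
    simp
  have valB : ∀ T ⊆ B, val (sgn A B) T = - (T.card : ℝ) := by
    intro T hT
    unfold val sgn
    rw [sum_congr rfl (fun i hi => by
      rw [if_neg (disjoint_right.mp hdis (hT hi)), if_pos (hT hi)])]
    simp
  have hzero : ∀ i, i ∉ A → i ∉ B → sgn A B i = 0 := by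
    intro i h1 h2; simp [sgn, h1, h2]
  -- a point of `Q` that shares all tight sets with `sgn A B` equals it
  have huniq : ∀ y ∈ Q p b,
      (∀ T, val (sgn A B) T = b T → val y T = b T) →
      (∀ T, val (sgn A B) T = p T → val y T = p T) → y = sgn A B := by
    intro y _ hyb hyp
    have yA : val y A = A.card := by
      have := hyb A (by rw [valA A (Subset.refl _), bA]; norm_cast)
      rw [this, bA]; norm_cast
    have pB : p B = -(B.card : ℤ) := by
      have : - p B = (B.card : ℤ) := qB
      omega
    have yB : val y B = -(B.card : ℝ) := by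
      have := hyp B (by rw [valB B (Subset.refl _), pB]; push_cast; ring)
      rw [this, pB]; push_cast; ring
    ext i
    by_cases hiA : i ∈ A
    · have s : ({i} : Finset (Fin n)) ⊆ A := singleton_subset_iff.mpr hiA
      have e1 : b {i} = 1 := by
        have := r1.indep bA s; simpa using this
      have := hyb {i} (by rw [valA _ s, e1]; simp)
      rw [val_sing, e1] at this
      have e2 := valA _ s
      rw [val_sing] at e2
      rw [this, e2]; simp
    by_cases hiB : i ∈ B
    · have s : ({i} : Finset (Fin n)) ⊆ B := singleton_subset_iff.mpr hiB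
      have e1 : p {i} = -1 := by
        have : - p {i} = ((({i} : Finset (Fin n)).card : ℕ) : ℤ) := r2.indep qB s
        simp at this
        omega
      have := hyp {i} (by rw [valB _ s, e1]; simp)
      rw [val_sing, e1] at this
      have e2 := valB _ s
      rw [val_sing] at e2
      rw [this, e2]; simp
    rw [hzero i hiA hiB]
    by_cases hiX : i ∈ X
    · have hbi : b (insert i A) = A.card := by
        have u1 : b (insert i A) ≤ b X :=
          hb (insert_subset hiX inter_subset_right)
        have u2 : b A ≤ b (insert i A) := hb (subset_insert _ _)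
        omega
      have := hyb (insert i A) (by
        rw [val_insert _ hiA, hzero i hiA hiB, valA A (Subset.refl _), hbi]; simp)
      rw [val_insert _ hiA, yA, hbi] at this
      have t : ((A.card : ℤ) : ℝ) = (A.card : ℝ) := by norm_cast
      rw [t] at this
      linarith
    · have hpi : p (insert i B) = -(B.card : ℤ) := by
        have u1 : q (insert i B) ≤ q (univ \ X) := by
          refine r2.mono _ _ (insert_subset (mem_sdiff.mpr ⟨mem_univ _, hiX⟩) ?_)
          exact sdiff_subset_sdiff (subset_univ _) (Subset.refl _)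
        have u2 : q B ≤ q (insert i B) := r2.mono _ _ (subset_insert _ _)
        have u3 : q (insert i B) = - p (insert i B) := rfl
        omega
      have := hyp (insert i B) (by
        rw [val_insert _ hiB, hzero i hiA hiB, valB B (Subset.refl _), hpi]; push_cast; ring)
      rw [val_insert _ hiB, yB, hpi] at this
      push_cast at this
      linarith
  refine ⟨A, B, hdis, ?_, hQ⟩
  rw [mem_extremePoints]
  refine ⟨hxQ, ?_⟩
  intro y hy z hz hseg
  obtain ⟨s, t, hs, ht, hst, heq⟩ := hseg
  have hval : ∀ T, s * val y T + t * val z T = val (sgn A B) T := by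
    intro T; rw [← heq, val_add, val_smul, val_smul]
  have key1 : ∀ T, val (sgn A B) T = b T → val y T = b T ∧ val z T = b T := by
    intro T hT
    have a1 := (hy T).2
    have a2 := (hz T).2
    have a3 := hval T
    rw [hT] at a3
    constructor
    · by_contra hne
      have : val y T < b T := lt_of_le_of_ne a1 hne
      have e1 := mul_lt_mul_of_pos_left this hs
      have e2 := mul_le_mul_of_nonneg_left a2 ht.le
      have e3 : s * (b T : ℝ) + t * b T = b T := by rw [← add_mul, hst, one_mul]
      linarith
    · by_contra hne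
      have : val z T < b T := lt_of_le_of_ne a2 hne
      have e1 := mul_lt_mul_of_pos_left this ht
      have e2 := mul_le_mul_of_nonneg_left a1 hs.le
      have e3 : s * (b T : ℝ) + t * b T = b T := by rw [← add_mul, hst, one_mul]
      linarith
  have key2 : ∀ T, val (sgn A B) T = p T → val y T = p T ∧ val z T = p T := by
    intro T hT
    have a1 := (hy T).1
    have a2 := (hz T).1
    have a3 := hval T
    rw [hT] at a3
    constructor
    · by_contra hne
      have : (p T : ℝ) < val y T := lt_of_le_of_ne a1 (Ne.symm hne)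
      have e1 := mul_lt_mul_of_pos_left this hs
      have e2 := mul_le_mul_of_nonneg_left a2 ht.le
      have e3 : s * (p T : ℝ) + t * p T = p T := by rw [← add_mul, hst, one_mul]
      linarith
    · by_contra hne
      have : (p T : ℝ) < val z T := lt_of_le_of_ne a2 (Ne.symm hne)
      have e1 := mul_lt_mul_of_pos_left this ht
      have e2 := mul_le_mul_of_nonneg_left a1 hs.le
      have e3 : s * (p T : ℝ) + t * p T = p T := by rw [← add_mul, hst, one_mul]
      linarith
  exact ⟨huniq y hy (fun T hT => (key1 T hT).1) (fun T hT => (key2 T hT).1),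
    huniq z hz (fun T hT => (key1 T hT).2) (fun T hT => (key2 T hT).2)⟩

/-- If `b` is nondecreasing, `p` is nonincreasing and all vertices of the integer g-polymatroid
`Q(p, b)` are `{0, 1, -1}`-vectors, then `Q(p, b)` has a vertex `v` such that every real vector
`y` with `|y i| ≤ |v i|` for all `i` lies in `Q(p, b)`; in particular `-v ∈ Q(p, b)`. -/
theorem result (n : ℕ) (p b : Finset (Fin n) → ℤ) (h : Paired p b) (hb : Monotone b)
    (hp : Antitone p)
    (hvert : ∀ v ∈ (Q p b).extremePoints ℝ, ∀ i, v i = 0 ∨ v i = 1 ∨ v i = -1) :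
    ∃ v ∈ (Q p b).extremePoints ℝ, -v ∈ Q p b ∧
      ∀ y : Fin n → ℝ, (∀ i, |y i| ≤ |v i|) → y ∈ Q p b := by
  classical
  have hb0 : ∀ Y, 0 ≤ b Y := fun Y => by
    have := hb (empty_subset Y); rwa [h.b0] at this
  have hp0 : ∀ Y, p Y ≤ 0 := fun Y => by
    have := hp (empty_subset Y); rwa [h.p0] at this
  have vs : ∀ (c : ℝ) (i : Fin n) (T : Finset (Fin n)),
      val (Pi.single i c) T = if i ∈ T then c else 0 := by
    intro c i T
    unfold val
    exact sum_pi_single' i c T
  have h1 : ∀ i, b {i} ≤ 1 := by
    intro i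
    have hy : (Pi.single i (b {i} : ℝ) : Fin n → ℝ) ∈ Q p b := by
      intro T
      rw [vs]
      have e0 : (0 : ℝ) ≤ b {i} := by exact_mod_cast hb0 _
      have e1 : (p T : ℝ) ≤ 0 := by exact_mod_cast hp0 _
      have e2 : (0 : ℝ) ≤ b T := by exact_mod_cast hb0 _
      split_ifs with hi
      · refine ⟨by linarith, ?_⟩
        exact_mod_cast hb (singleton_subset_iff.mpr hi)
      · exact ⟨e1, e2⟩
    obtain ⟨v, hv, hle⟩ := exists_vertex_max p b 1 i hy
    simp only [one_mul, Pi.single_eq_same] at hle
    have hv1 : v i ≤ 1 := by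
      rcases hvert v hv i with e | e | e <;> rw [e] <;> norm_num
    exact_mod_cast hle.trans hv1
  have h2 : ∀ i, -1 ≤ p {i} := by
    intro i
    have hy : (Pi.single i (p {i} : ℝ) : Fin n → ℝ) ∈ Q p b := by
      intro T
      rw [vs]
      have e0 : (p {i} : ℝ) ≤ 0 := by exact_mod_cast hp0 _
      have e1 : (p T : ℝ) ≤ 0 := by exact_mod_cast hp0 _
      have e2 : (0 : ℝ) ≤ b T := by exact_mod_cast hb0 _
      split_ifs with hi
      · refine ⟨?_, by linarith⟩
        exact_mod_cast hp (singleton_subset_iff.mpr hi)
      · exact ⟨e1, e2⟩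
    obtain ⟨v, hv, hle⟩ := exists_vertex_max p b (-1) i hy
    simp only [Pi.single_eq_same] at hle
    have hv1 : -1 ≤ v i := by
      rcases hvert v hv i with e | e | e <;> rw [e] <;> norm_num
    have : (-1 : ℝ) ≤ (p {i} : ℝ) := by linarith
    exact_mod_cast this
  obtain ⟨A, B, -, hext, hQ⟩ := core h hb hp h1 h2
  exact ⟨sgn A B, hext, hQ _ (fun i => by simp), hQ⟩

end Pool.Agent.Results.MP_8bd56d_co.TwoMatroids
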