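import Pool.Agent.H73.OV.Main

/-!
# Opposite vertices of integer g-polymatroids: vertices with equally many zeros
-/

set_option autoImplicit false

open Finset

namespace Pool.Agent.Results.MP_8bd56d_co.ZeroCounts

open Pool.Agent.W600.Opp (GQ Paired)

/-- Let `(p, b)` be a paired pair of integer valued set functions on `{1, ..., n}` and
`Q = Q(p, b)` the integer g-polymatroid they define. Suppose that `0 ∈ Q`, that every vertex of
`Q` lies in `{0, 1, -1}^n`, and that either all vertices of `Q` have the same number of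
coordinates equal to `0`, or every vertex of `Q` has at most one coordinate equal to `0`.
Then `Q` has a vertex `v` with `-v ∈ Q`. -/
theorem result (n : ℕ) (p b : Finset (Fin n) → ℤ) (hpb : Paired p b)
    (h0 : (0 : Fin n → ℝ) ∈ GQ p b)
    (hv : ∀ v ∈ (GQ p b).extremePoints ℝ, ∀ i, v i = 0 ∨ v i = 1 ∨ v i = -1)
    (hz : (∃ m : ℕ, ∀ v ∈ (GQ p b).extremePoints ℝ,
        (univ.filter (fun i => v i = 0)).card = m) ∨
      (∀ v ∈ (GQ p b).extremePoints ℝ, (univ.filter (fun i => v i = 0)).card ≤ 1)) :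
    ∃ v ∈ (GQ p b).extremePoints ℝ, -v ∈ GQ p b := by
  rcases hz with ⟨m, hm⟩ | h1
  · obtain ⟨v, v1, v2⟩ := Pool.Agent.H73.OV.main_const hpb h0 hv m hm
    exact ⟨v, v1, v2.1⟩
  · exact Pool.Agent.H73.OV.main_one hpb h0 hv h1

end Pool.Agent.Results.MP_8bd56d_co.ZeroCounts
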